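import Pool.Agent.V5helper52.TR.Main

/-!
# Schemes with an atlas of torus actions
-/

set_option autoImplicit false
set_option maxHeartbeats 400000

open CategoryTheory AlgebraicGeometry Pool.Agent.Y116.UV Pool.Agent.V5helper52.SF

namespace Pool.Agent.V5helper52.TR

variable {R : Type} [CommRing R] [IsNoetherianRing R] {P : Sch R → Prop} (hP : Loc P) {n : ℕ}
    (hn : ∀ (C : Type) [CommRing C] [IsDomain C] [Algebra R C] [Algebra.FiniteType R C],
      ringKrullDim C ≤ n → P (aff R C))

section

variable {A : Type} [CommRing A] [Algebra R A] [Algebra.FiniteType R A] {r : ℕ}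
  {𝒜 : (Fin r → ℤ) → Submodule R A} [GradedAlgebra 𝒜]

include hP hn

/-- **Stable open subschemes of affine schemes.** -/
theorem p_stable_open (hmod : ComplexityLE 𝒜 n) (I : Ideal A) (hI : I.IsHomogeneous 𝒜) (U : Sch R)
    (j : U ⟶ aff R A) (hj : IsOpenImmersion j.left)
    (hr : Set.range j.left = {x : PrimeSpectrum A | ∃ g ∈ I, g ∉ x.asIdeal}) : P U := by
  have h1 := p_homog hP hn hmod I hI
  have h2 := p_homog hP hn hmod ⊥ (Ideal.IsHomogeneous.bot 𝒜)
  have h3 : P (aff R A) := iso_alg hP (AlgEquiv.quotientBot R A) h2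
  exact hP.opened _ j (ft_aff True) (triple_ideal I U j hj hr) h1 h3

end

include hP hn

/-- an open part of a chart -/
lemma p_chart {X : Sch R} (a : TorusAtlas X n) (i : Fin a.N) (V : X.left.Opens)
    (hV : (V : Set X.left) ⊆ Set.range (a.j i).left)
    (hI : ∃ I : Ideal (a.a i).A, I.IsHomogeneous (a.a i).𝒜 ∧
        (a.ι i).left '' ((a.j i).left ⁻¹' (V : Set X.left)) =
          {x : PrimeSpectrum (a.a i).A | ∃ g ∈ I, g ∉ x.asIdeal}) : P (opn X V) := by
  obtain ⟨I, hI, hr⟩ := hI
  have h1 := a.open_ι i
  have h2 := a.open_j i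
  have h3 : Set.range (opnMap X V).left ⊆ Set.range (a.j i).left := by
    rw [range_opnMap]
    exact hV
  let l : (opn X V).left ⟶ (a.U i).left := IsOpenImmersion.lift (a.j i).left (opnMap X V).left h3
  have hl : l ≫ (a.j i).left = (opnMap X V).left := IsOpenImmersion.lift_fac _ _ _
  have hlo : IsOpenImmersion l := by
    have h4 : IsOpenImmersion (l ≫ (a.j i).left) := by
      rw [hl]
      infer_instance
    exact IsOpenImmersion.of_comp l (a.j i).left
  let f : opn X V ⟶ a.U i := Over.homMk l (by
    rw [← Over.w (a.j i), ← Category.assoc, hl, Over.w (opnMap X V)])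
  have hfl : ∀ x, (a.j i).left (f.left x) = (opnMap X V).left x := by
    intro x
    have h5 := congrArg (fun g => g.base x) hl
    exact h5
  have hfr : Set.range f.left = (a.j i).left ⁻¹' (V : Set X.left) := by
    ext y
    constructor
    · rintro ⟨x, rfl⟩
      change (a.j i).left (f.left x) ∈ (V : Set X.left)
      rw [hfl, ← range_opnMap X V]
      exact ⟨x, rfl⟩
    · intro hy
      have hy' : (a.j i).left y ∈ (V : Set X.left) := hy
      rw [← range_opnMap X V] at hy'
      obtain ⟨x, hx⟩ := hy'
      refine ⟨x, (a.j i).left.isOpenEmbedding.injective ?_⟩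
      rw [hfl, hx]
  refine p_stable_open hP hn (a.complexity i) I hI (opn X V)
    (f ≫ a.ι i) (inferInstanceAs (IsOpenImmersion (l ≫ (a.ι i).left))) ?_
  rw [← hr, ← hfr, ← Set.range_comp]
  rfl

/-- **Schemes with an atlas of torus actions.** -/
theorem p_atlas {X : Sch R} (hX : FT True X) (a : TorusAtlas X n) : P X := by
  classical
  have hopen : ∀ i, IsOpen (Set.range (a.j i).left) := fun i => by
    have := a.open_j i
    exact (a.j i).left.isOpenEmbedding.isOpen_range
  let O : Fin a.N → X.left.Opens := fun i => ⟨Set.range (a.j i).left, hopen i⟩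
  have key : ∀ F : Finset (Fin a.N), P (opn X (⨆ i ∈ F, O i)) := by
    intro F
    induction F using Finset.induction_on with
    | empty =>
      have h1 : (⨆ i ∈ (∅ : Finset (Fin a.N)), O i) = ⊥ := by simp
      rw [h1]
      apply p_emp hP
      refine ⟨fun x => ?_⟩
      have h2 : (opnMap X ⊥).left x ∈ Set.range (opnMap X ⊥).left := ⟨x, rfl⟩
      rw [range_opnMap] at h2
      exact h2
    | insert i F hi ih =>
      rw [Finset.iSup_insert]
      refine p_glue hP hX _ _ (p_chart hP hn a i _ subset_rfl (a.stable i i)) ih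
        (p_chart hP hn a i _ Set.inter_subset_left ?_)
      choose I hI hIr using a.stable i
      have key2 : ∀ F : Finset (Fin a.N), ∃ J : Ideal (a.a i).A, J.IsHomogeneous (a.a i).𝒜 ∧
          (a.ι i).left '' ((a.j i).left ⁻¹' ((O i ⊓ ⨆ j ∈ F, O j : X.left.Opens) : Set X.left)) =
            {x : PrimeSpectrum (a.a i).A | ∃ g ∈ J, g ∉ x.asIdeal} := by
        intro F
        induction F using Finset.induction_on with
        | empty =>
          refine ⟨⊥, Ideal.IsHomogeneous.bot _, ?_⟩
          have h1 : (O i ⊓ ⨆ j ∈ (∅ : Finset (Fin a.N)), O j) = ⊥ := by simp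
          rw [h1]
          ext x
          constructor
          · rintro ⟨y, hy, _⟩
            exact hy.elim
          · rintro ⟨g, hg, hgx⟩
            rw [Ideal.mem_bot.mp hg] at hgx
            exact absurd (zero_mem _) hgx
        | insert j F hj ih2 =>
          obtain ⟨J, hJ, hJr⟩ := ih2
          refine ⟨I j ⊔ J, (hI j).sup hJ, ?_⟩
          have h1 : ((a.j i).left ⁻¹' ((O i ⊓ ⨆ l ∈ insert j F, O l : X.left.Opens) : Set X.left)) =
              ((a.j i).left ⁻¹' Set.range (a.j j).left) ∪
              ((a.j i).left ⁻¹' ((O i ⊓ ⨆ l ∈ F, O l : X.left.Opens) : Set X.left)) := by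
            rw [Finset.iSup_insert, inf_sup_left]
            ext x
            constructor
            · rintro (h | h)
              · exact Or.inl h.2
              · exact Or.inr h
            · rintro (h | h)
              · exact Or.inl ⟨⟨x, rfl⟩, h⟩
              · exact Or.inr h
          rw [h1, Set.image_union, hIr j, hJr]
          ext x
          constructor
          · rintro (⟨g, hg, hgx⟩ | ⟨g, hg, hgx⟩)
            · exact ⟨g, Ideal.mem_sup_left hg, hgx⟩
            · exact ⟨g, Ideal.mem_sup_right hg, hgx⟩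
          · rintro ⟨g, hg, hgx⟩
            by_contra hcon
            apply hgx
            have h2 : I j ⊔ J ≤ x.asIdeal := by
              refine sup_le (fun b hb => ?_) (fun b hb => ?_)
              · by_contra hbx
                exact hcon (Or.inl ⟨b, hb, hbx⟩)
              · by_contra hbx
                exact hcon (Or.inr ⟨b, hb, hbx⟩)
            exact h2 hg
      exact key2 F
  have h1 := key Finset.univ
  have h2 : (⨆ i ∈ (Finset.univ : Finset (Fin a.N)), O i) = ⊤ := by
    rw [eq_top_iff]
    intro x _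
    obtain ⟨i, hi⟩ := a.cover x
    have h3 : O i ≤ ⨆ i ∈ (Finset.univ : Finset (Fin a.N)), O i :=
      le_iSup₂_of_le i (Finset.mem_univ i) le_rfl
    exact h3 hi
  rw [h2] at h1
  exact hP.iso (ft_opens hX ⊤) ⟨Over.isoMk (Scheme.topIso X.left) rfl⟩ h1

end Pool.Agent.V5helper52.TR
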