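import Pool.Agent.Y116.UV.Geo

/-!
# Actions of split tori on affine schemes
-/

set_option autoImplicit false

namespace Pool.Agent.V5helper52.TR

variable {R A G : Type} [CommRing R] [CommRing A] [Algebra R A]

/-- An element of the field of fractions of `A / p` is invariant under the torus if it is a quotient
`a / b` of homogeneous elements of the same degree. -/
def IsInv (𝒜 : G → Submodule R A) (p : Ideal A) [p.IsPrime] (x : FractionRing (A ⧸ p)) : Prop :=
  ∃ g, ∃ a ∈ 𝒜 g, ∃ b ∈ 𝒜 g, b ∉ p ∧
    x = algebraMap (A ⧸ p) (FractionRing (A ⧸ p)) (Ideal.Quotient.mk p a) /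
      algebraMap (A ⧸ p) (FractionRing (A ⧸ p)) (Ideal.Quotient.mk p b)

/-- The absolute complexity is at most `n`: for all minimal prime ideals `p` of `A`, the Krull
dimension of all finitely generated subalgebras of the field of invariants of the field of fractions
of `A / p` is at most `n`. -/
def ComplexityLE (𝒜 : G → Submodule R A) (n : ℕ) : Prop :=
  ∀ (p : Ideal A) [p.IsPrime], p ∈ minimalPrimes A → ∀ C : Subalgebra R (FractionRing (A ⧸ p)),
    C.FG → (∀ x ∈ C, IsInv 𝒜 p x) → ringKrullDim C ≤ n

/-- An affine scheme `Spec A` of finite type over `R` with an action of a split torus: a grading of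
`A` by `ℤ ^ r`. -/
structure Act (R : Type) [CommRing R] where
  A : Type
  [ring : CommRing A]
  [algebra : Algebra R A]
  [finiteType : Algebra.FiniteType R A]
  /-- the rank of the torus -/
  r : ℕ
  /-- the grading -/
  𝒜 : (Fin r → ℤ) → Submodule R A
  [graded : GradedAlgebra 𝒜]

attribute [instance] Act.ring Act.algebra Act.finiteType Act.graded

open CategoryTheory AlgebraicGeometry Pool.Agent.Y116.UV

/-- A finite covering of a scheme `X` over `R` by open subschemes `j i : U i ⟶ X`, each of which is
embedded by `ι i` as an open subscheme of an affine scheme `Spec A_i` with an action of a split torus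
of absolute complexity at most `n`, such that for all `i` and `l` the intersection of `U i` and `U l`
is in `Spec A_i` the complement of the closed subset defined by a homogeneous ideal. -/
structure TorusAtlas {R : Type} [CommRing R] (X : Sch R) (n : ℕ) where
  /-- the number of charts -/
  N : ℕ
  /-- the actions -/
  a : Fin N → Act R
  complexity : ∀ i, ComplexityLE (a i).𝒜 n
  /-- the charts -/
  U : Fin N → Sch R
  /-- the inclusions of the charts -/
  j : ∀ i, U i ⟶ X
  /-- the embeddings of the charts -/
  ι : ∀ i, U i ⟶ aff R (a i).A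
  open_j : ∀ i, IsOpenImmersion (j i).left
  open_ι : ∀ i, IsOpenImmersion (ι i).left
  cover : ∀ x : X.left, ∃ i, x ∈ Set.range (j i).left
  stable : ∀ i l, ∃ I : Ideal (a i).A, I.IsHomogeneous (a i).𝒜 ∧
    (ι i).left '' ((j i).left ⁻¹' Set.range (j l).left) =
      {x : PrimeSpectrum (a i).A | ∃ g ∈ I, g ∉ x.asIdeal}

end Pool.Agent.V5helper52.TR
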