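import Pool.Agent.V5helper52.TR.Units
import Pool.Agent.V5helper52.TR.Geo

/-!
# Generic structure of an action of a split torus
-/

set_option autoImplicit false
set_option maxHeartbeats 400000

open Pool.Agent.Y116.UV

namespace Pool.Agent.V5helper52.TR

variable {R K G : Type} [CommRing R] [Field K] [Algebra R K] [AddCommGroup G]
  {W : G → Submodule R K}

/-- **Generic structure.** -/
theorem stage [Module.Free ℤ G] [Module.Finite ℤ G] (hW : Wts W) {P : Sch R → Prop} (hP : Loc P)
    (hn : ∀ C : Subalgebra R K, C.FG → (∀ x ∈ C, x ∈ W 0) → P (aff R C))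
    (S : Subalgebra R K) (hfg : S.FG) (hgr : Gr W S) : ∃ (f : K) (hf : f ∈ S), f ≠ 0 ∧
      (∃ g, f ∈ W g) ∧ P (aff R (loc S f hf)) := by
  obtain ⟨f, hf, h0, hfW, hT⟩ := exists_units hW hgr hfg
  refine ⟨f, hf, h0, hfW, ?_⟩
  obtain ⟨b, he⟩ := torus hW _ hT
  have hTfg := loc_fg S f hf h0 hfg
  have hCfg := deg0_fg hW hTfg he
  have hC : P (aff R (deg0 hW (loc S f hf))) := hn _ hCfg fun x hx => hx.2
  have hCft : Algebra.FiniteType R (deg0 hW (loc S f hf)) :=
    (Subalgebra.fg_iff_finiteType _).mp hCfg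
  have h1 := p_tor hP b _ hC
  have hft : Algebra.FiniteType R (AddMonoidAlgebra (deg0 hW (loc S f hf)) (Fin b → ℤ)) :=
    Algebra.FiniteType.trans (S := deg0 hW (loc S f hf)) inferInstance inferInstance
  obtain ⟨e⟩ := he
  exact iso_alg hP e.symm h1

end Pool.Agent.V5helper52.TR
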