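
import Pool.Agent.V5helper52.TR.Stage
import Pool.Agent.V5helper52.SF.QAlg

/-!
# Fractions of homogeneous elements
-/

set_option autoImplicit false
set_option maxHeartbeats 400000

open Pool.Agent.Y116.UV Pool.Agent.Z125.UN Pool.Agent.V5helper52.SF

namespace Pool.Agent.V5helper52.TR

variable {k : Type} [CommRing k] {A : Type} [CommRing A] [Algebra k A] {G : Type} [AddCommGroup G]
  [DecidableEq G] (𝒜 : G → Submodule k A) [GradedAlgebra 𝒜] (p : Ideal A) [hp : p.IsPrime]

/-- the map to the field of fractions of the quotient -/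
noncomputable def φ : A →ₐ[k] FractionRing (A ⧸ p) :=
  (IsScalarTower.toAlgHom k (A ⧸ p) (FractionRing (A ⧸ p))).comp (Ideal.Quotient.mkₐ k p)

variable (k) in
omit hp in
lemma φ_apply (a : A) : φ (k := k) p a = algebraMap (A ⧸ p) (FractionRing (A ⧸ p))
    (Ideal.Quotient.mk p a) := rfl

variable (k) in
omit hp in
lemma φ_zero (a : A) : φ (k := k) p a = 0 ↔ a ∈ p := by
  rw [φ_apply, map_eq_zero_iff _ (IsFractionRing.injective (A ⧸ p) (FractionRing (A ⧸ p))),
    Ideal.Quotient.eq_zero_iff_mem]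

/-- homogeneous fractions -/
noncomputable def frW (g : G) : Submodule k (FractionRing (A ⧸ p)) where
  carrier := {x | ∃ h, ∃ a ∈ 𝒜 (h + g), ∃ b ∈ 𝒜 h, b ∉ p ∧ x = φ (k := k) p a / φ (k := k) p b}
  add_mem' := by
    rintro x y ⟨h, a, ha, b, hb, hbp, rfl⟩ ⟨h', a', ha', b', hb', hbp', rfl⟩
    have h1 : φ (k := k) p b ≠ 0 := fun h => hbp ((φ_zero k p b).mp h)
    have h2 : φ (k := k) p b' ≠ 0 := fun h => hbp' ((φ_zero k p b').mp h)
    refine ⟨h + h', a * b' + b * a', add_mem ?_ ?_, b * b', SetLike.mul_mem_graded hb hb', ?_, ?_⟩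
    · have h3 := SetLike.mul_mem_graded ha hb'
      rwa [show h + g + h' = h + h' + g by abel] at h3
    · have h3 := SetLike.mul_mem_graded hb ha'
      rwa [show h + (h' + g) = h + h' + g by abel] at h3
    · exact fun h3 => (hp.mem_or_mem h3).elim hbp hbp'
    · rw [div_add_div _ _ h1 h2, map_add, map_mul, map_mul, map_mul]
  zero_mem' := ⟨0, 0, zero_mem _, 1, SetLike.one_mem_graded 𝒜, fun h =>
    hp.ne_top ((Ideal.eq_top_iff_one _).mpr h), by rw [map_zero, _root_.zero_div]⟩
  smul_mem' := by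
    rintro r x ⟨h, a, ha, b, hb, hbp, rfl⟩
    exact ⟨h, r • a, Submodule.smul_mem _ r ha, b, hb, hbp, by
      rw [map_smul, smul_div_assoc]⟩

lemma mem_frW {g : G} {x : FractionRing (A ⧸ p)} : x ∈ frW 𝒜 p g ↔
    ∃ h, ∃ a ∈ 𝒜 (h + g), ∃ b ∈ 𝒜 h, b ∉ p ∧ x = φ (k := k) p a / φ (k := k) p b := Iff.rfl

lemma φ_mem {g : G} {a : A} (ha : a ∈ 𝒜 g) : φ (k := k) p a ∈ frW 𝒜 p g :=
  ⟨0, a, by rwa [zero_add], 1, SetLike.one_mem_graded 𝒜, fun h =>
    hp.ne_top ((Ideal.eq_top_iff_one _).mpr h), by rw [map_one, div_one]⟩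

/-- the homogeneous components of a sum -/
lemma comp_sum {ι : Type} (s : Finset ι) (γ : ι → G) (hγ : Function.Injective γ) (c : ι → A)
    (hc : ∀ i ∈ s, c i ∈ 𝒜 (γ i)) (i : ι) (hi : i ∈ s) :
    (DirectSum.decompose 𝒜 (∑ i ∈ s, c i) (γ i) : A) = c i := by
  classical
  rw [DirectSum.decompose_sum, DirectSum.sum_apply, AddSubmonoidClass.coe_finsetSum,
    Finset.sum_eq_single i]
  · exact DirectSum.decompose_of_mem_same 𝒜 (hc i hi)
  · intro j hj hji
    exact DirectSum.decompose_of_mem_ne 𝒜 (hc j hj) fun e => hji (hγ e)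
  · exact fun h => absurd hi h

theorem wts (hh : p.IsHomogeneous 𝒜) : Wts (frW 𝒜 p) where
  one := by
    have h := φ_mem 𝒜 p (SetLike.one_mem_graded 𝒜)
    rwa [map_one] at h
  mul := by
    rintro g g' x y ⟨h, a, ha, b, hb, hbp, rfl⟩ ⟨h', a', ha', b', hb', hbp', rfl⟩
    refine ⟨h + h', a * a', ?_, b * b', SetLike.mul_mem_graded hb hb',
      fun h3 => (hp.mem_or_mem h3).elim hbp hbp', ?_⟩
    · have h3 := SetLike.mul_mem_graded ha ha'
      rwa [show h + g + (h' + g') = h + h' + (g + g') by abel] at h3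
    · rw [div_mul_div_comm, map_mul, map_mul]
  inv := by
    rintro g x ⟨h, a, ha, b, hb, hbp, rfl⟩
    by_cases hap : a ∈ p
    · rw [(φ_zero k p a).mpr hap, _root_.zero_div, inv_zero]
      exact zero_mem _
    · exact ⟨h + g, b, by rwa [add_neg_cancel_right], a, ha, hap, by rw [inv_div]⟩
  indep := by
    classical
    intro v hv hsum
    choose h a ha b hb hbp hx using hv
    have hb0 : ∀ g, φ (k := k) p (b g) ≠ 0 := fun g h => hbp g ((φ_zero k p _).mp h)
    have key : ∀ g ∈ v.support, v g = 0 := by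
      intro g hg
      let H : G := ∑ g ∈ v.support, h g
      let c : G → A := fun g => a g * ∏ g' ∈ v.support.erase g, b g'
      have hc : ∀ g ∈ v.support, c g ∈ 𝒜 (g + H) := by
        intro g hg
        have h1 : ∏ g' ∈ v.support.erase g, b g' ∈ 𝒜 (∑ g' ∈ v.support.erase g, h g') :=
          SetLike.prod_mem_graded (A := 𝒜) (fun i => h i) b fun i _ => hb i
        have h2 := SetLike.mul_mem_graded (ha g) h1
        have h3 : h g + g + ∑ g' ∈ v.support.erase g, h g' = g + H := by
          rw [add_right_comm, Finset.add_sum_erase _ _ hg, add_comm]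
        rwa [h3] at h2
      let B : A := ∏ g ∈ v.support, b g
      have hB : φ (k := k) p B ≠ 0 := by
        change φ (k := k) p (∏ g ∈ v.support, b g) ≠ 0
        rw [map_prod]
        exact Finset.prod_ne_zero_iff.mpr fun g _ => hb0 g
      have hcv : ∀ g ∈ v.support, φ (k := k) p (c g) = v g * φ (k := k) p B := by
        intro g hg
        have h1 : B = b g * ∏ g' ∈ v.support.erase g, b g' :=
          (Finset.mul_prod_erase _ _ hg).symm
        rw [h1, hx g, map_mul, map_mul]
        field_simp [hb0 g]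
      have hsum2 : ∑ g ∈ v.support, c g ∈ p := by
        rw [← φ_zero k p, map_sum, Finset.sum_congr rfl hcv, ← Finset.sum_mul, hsum, zero_mul]
      have h3 := hh (g + H) hsum2
      rw [comp_sum 𝒜 v.support (fun g => g + H) (add_left_injective H) c hc g hg] at h3
      have h4 := hcv g hg
      rw [(φ_zero k p _).mpr h3] at h4
      exact (mul_eq_zero.mp h4.symm).resolve_right hB
    ext g
    by_cases hg : g ∈ v.support
    · exact key g hg
    · exact Finsupp.notMem_support_iff.mp hg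

end Pool.Agent.V5helper52.TR
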