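import Pool.Agent.V5helper52.TR.Defs
import Pool.Agent.V5helper52.TR.Frac

/-!
# Homogeneous prime ideals
-/

set_option autoImplicit false
set_option maxHeartbeats 400000

open Pool.Agent.Y116.UV Pool.Agent.V5helper52.SF

namespace Pool.Agent.V5helper52.TR

variable {R : Type} [CommRing R] {A : Type} [CommRing A] [Algebra R A] {G : Type} [AddCommGroup G]
  [DecidableEq G] (𝒜 : G → Submodule R A) [GradedAlgebra 𝒜] (p : Ideal A) [hp : p.IsPrime]

omit hp in
lemma range_fg [Algebra.FiniteType R A] : (φ (k := R) p).range.FG := by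
  rw [Subalgebra.fg_iff_finiteType]
  exact Algebra.FiniteType.of_surjective (φ (k := R) p).rangeRestrict
    (φ (k := R) p).rangeRestrict_surjective

lemma range_gr : Gr (frW 𝒜 p) (φ (k := R) p).range := by
  classical
  rintro x ⟨a, rfl⟩
  change φ (k := R) p a ∈ _
  rw [← DirectSum.sum_support_decompose 𝒜 a, map_sum]
  exact gr_of _ _ (fun g _ => ⟨g, φ_mem 𝒜 p (SetLike.coe_mem _)⟩) (fun g _ => ⟨_, rfl⟩)

omit hp in
/-- localisations of isomorphic algebras -/
theorem awayIso' {A B : Type} [CommRing A] [Algebra R A] [CommRing B] [Algebra R B]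
    (e : A ≃ₐ[R] B) (a : A) :
    Nonempty (Localization.Away a ≃ₐ[R] Localization.Away (e a)) := by
  let m := IsScalarTower.toAlgHom R A (Localization.Away a)
  let n := IsScalarTower.toAlgHom R B (Localization.Away (e a))
  have hm : IsUnit (m a) := IsLocalization.Away.algebraMap_isUnit _
  have hn : IsUnit (n (e a)) := IsLocalization.Away.algebraMap_isUnit _
  let f : Localization.Away a →ₐ[R] Localization.Away (e a) :=
    IsLocalization.liftAlgHom (M := Submonoid.powers a) (f := n.comp e.toAlgHom) (by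
      rintro ⟨_, i, rfl⟩
      change IsUnit (n (e (a ^ i)))
      rw [map_pow, map_pow]
      exact hn.pow i)
  have hf : ∀ x, f (m x) = n (e x) := fun x => IsLocalization.lift_eq _ _
  let g : Localization.Away (e a) →ₐ[R] Localization.Away a :=
    IsLocalization.liftAlgHom (M := Submonoid.powers (e a)) (f := m.comp e.symm.toAlgHom) (by
      rintro ⟨_, i, rfl⟩
      change IsUnit (m (e.symm (e a ^ i)))
      rw [map_pow, map_pow, AlgEquiv.symm_apply_apply]
      exact hm.pow i)
  have hg : ∀ x, g (n x) = m (e.symm x) := fun x => IsLocalization.lift_eq _ _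
  refine ⟨AlgEquiv.ofAlgHom f g ?_ ?_⟩
  · apply AlgHom.coe_ringHom_injective
    refine IsLocalization.ringHom_ext (Submonoid.powers (e a)) ?_
    ext x
    change f (g (n x)) = n x
    rw [hg, hf, AlgEquiv.apply_symm_apply]
  · apply AlgHom.coe_ringHom_injective
    refine IsLocalization.ringHom_ext (Submonoid.powers a) ?_
    ext x
    change g (f (m x)) = m x
    rw [hf, hg, AlgEquiv.symm_apply_apply]

/-- **Homogeneous prime ideals.** -/
theorem p_prime [Algebra.FiniteType R A] [Module.Free ℤ G] [Module.Finite ℤ G]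
    (hst : p.IsHomogeneous 𝒜) {P : Sch R → Prop} (hP : Loc P)
    (hC : ∀ C : Subalgebra R (FractionRing (A ⧸ p)), C.FG → (∀ x ∈ C, IsInv 𝒜 p x) → P (aff R C))
    (hq : ∀ a g, a ∉ p → a ∈ 𝒜 g → P (aff R (A ⧸ (p ⊔ Ideal.span {a})))) :
    P (aff R (A ⧸ p)) := by
  have hW := wts 𝒜 p hst
  have hC' : ∀ C : Subalgebra R (FractionRing (A ⧸ p)), C.FG →
      (∀ x ∈ C, x ∈ frW 𝒜 p 0) → P (aff R C) := by
    intro C hfg hx
    refine hC C hfg fun x hxC => ?_
    obtain ⟨h, a, ha, b, hb, hbp, he⟩ := hx x hxC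
    rw [add_zero] at ha
    exact ⟨h, a, ha, b, hb, hbp, he⟩
  obtain ⟨f, hf, h0, ⟨g, hg⟩, hfP⟩ := stage hW hP hC' _ (range_fg p) (range_gr 𝒜 p)
  -- a homogeneous representative
  obtain ⟨a, ha⟩ := hf
  change φ (k := R) p a = f at ha
  classical
  have h1 : ∃ a' ∈ 𝒜 g, φ (k := R) p a' = f := by
    let v : G →₀ FractionRing (A ⧸ p) := Finsupp.onFinset (DirectSum.decompose 𝒜 a).support
      (fun h => φ (k := R) p (DirectSum.decompose 𝒜 a h : A)) (by
        intro h hh
        rw [DFinsupp.mem_support_iff]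
        intro h2
        rw [h2] at hh
        exact hh (map_zero _))
    have hv : ∀ h, v h ∈ frW 𝒜 p h := fun h => φ_mem 𝒜 p (SetLike.coe_mem _)
    have hs : ∑ h ∈ v.support, v h = f := by
      rw [← ha, ← DirectSum.sum_support_decompose 𝒜 a, map_sum]
      refine Finset.sum_subset Finsupp.support_onFinset_subset ?_
      intro h _ hh
      exact Finsupp.notMem_support_iff.mp hh
    have h2 := comp_eq hW v hv (by rw [hs]; exact hg)
    exact ⟨_, SetLike.coe_mem _, by rw [← hs, h2]; rfl⟩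
  obtain ⟨a', ha', haf⟩ := h1
  have hap : a' ∉ p := fun h => h0 (by rw [← haf]; exact (φ_zero R p a').mpr h)
  refine ring_total hP (Ideal.Quotient.mk p a') (quot_mk hP p a' (hq a' g hap ha')) ?_
  -- the localization
  have hfr : f ∈ (φ (k := R) p).range := ⟨a', haf⟩
  have hft : Algebra.FiniteType R (loc _ f hfr) := (Subalgebra.fg_iff_finiteType _).mp
    (loc_fg _ f hfr h0 (range_fg p))
  let ψ : (A ⧸ p) →ₐ[R] FractionRing (A ⧸ p) := IsScalarTower.toAlgHom R (A ⧸ p) (FractionRing (A ⧸ p))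
  have hψ : Function.Injective ψ := IsFractionRing.injective (A ⧸ p) (FractionRing (A ⧸ p))
  have hmem : ∀ y, ψ y ∈ (φ (k := R) p).range := by
    intro y
    obtain ⟨b, rfl⟩ := Ideal.Quotient.mk_surjective y
    exact ⟨b, rfl⟩
  let e : (A ⧸ p) ≃ₐ[R] (φ (k := R) p).range :=
    AlgEquiv.ofBijective (ψ.codRestrict _ hmem) ⟨fun x y h => hψ (congrArg Subtype.val h), by
      rintro ⟨_, b, rfl⟩
      exact ⟨Ideal.Quotient.mk p b, rfl⟩⟩
  have he : e (Ideal.Quotient.mk p a') = ⟨f, hfr⟩ := Subtype.ext haf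
  obtain ⟨e1⟩ := awayIso' e (Ideal.Quotient.mk p a')
  rw [he] at e1
  obtain ⟨e2⟩ := loc_iso (φ (k := R) p).range f hfr h0
  exact iso_alg hP (e1.trans e2).symm hfP

end Pool.Agent.V5helper52.TR
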