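import Pool.Agent.V5helper52.SF.Compl
import Pool.Agent.Z125.UN.NI

/-!
# Properties of schemes which are closed under closed-open decompositions and affine lines
-/

set_option autoImplicit false
set_option maxHeartbeats 400000

open CategoryTheory AlgebraicGeometry Pool.Agent.Y116.UV Pool.Agent.V5helper52.SF

namespace Pool.Agent.V5helper52.TR

variable {R : Type} [CommRing R]

/-- The property `P` of separated schemes of finite type over `R` is invariant under isomorphisms,
closed under closed-open decompositions (two out of three), true for the empty scheme, and it passes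
from affine schemes `X` to `X × 𝔸¹`. -/
structure Loc (P : Sch R → Prop) : Prop where
  iso : ∀ {X Y : Sch R}, FT True X → Nonempty (X ≅ Y) → P X → P Y
  total : ∀ {Z X U : Sch R} (i : Z ⟶ X) (j : U ⟶ X), FT True X → IsTriple i j → P Z → P U → P X
  opened : ∀ {Z X U : Sch R} (i : Z ⟶ X) (j : U ⟶ X), FT True X → IsTriple i j → P Z → P X → P U
  closed : ∀ {Z X U : Sch R} (i : Z ⟶ X) (j : U ⟶ X), FT True X → IsTriple i j → P X → P U → P Z
  empty : P (aff R PUnit.{1})
  line : ∀ (A : Type) [CommRing A] [Algebra R A] [Algebra.FiniteType R A],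
    P (aff R A) → P (aff R (Polynomial A))

variable {P : Sch R → Prop} (hP : Loc P)

include hP

lemma iso_alg {A B : Type} [CommRing A] [CommRing B] [Algebra R A] [Algebra R B]
    [Algebra.FiniteType R A] (e : A ≃ₐ[R] B) (h : P (aff R A)) : P (aff R B) :=
  hP.iso (ft_aff True) ⟨(affIso e).symm⟩ h

section

variable {A : Type} [CommRing A] [Algebra R A] [Algebra.FiniteType R A]

lemma ring_total (w : A) (h1 : P (aff R (A ⧸ Ideal.span {w})))
    (h2 : P (aff R (Localization.Away w))) : P (aff R A) :=
  hP.total _ _ (ft_aff True) (triple_away w) h1 h2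

lemma ring_open (w : A) (h1 : P (aff R (A ⧸ Ideal.span {w}))) (h2 : P (aff R A)) :
    P (aff R (Localization.Away w)) :=
  hP.opened _ _ (ft_aff True) (triple_away w) h1 h2

lemma quot_mk (I : Ideal A) (a : A) (h : P (aff R (A ⧸ (I ⊔ Ideal.span {a})))) :
    P (aff R ((A ⧸ I) ⧸ Ideal.span {Ideal.Quotient.mk I a})) := by
  have h2 : Ideal.map (Ideal.Quotient.mkₐ R I) (Ideal.span {a}) =
      Ideal.span {Ideal.Quotient.mk I a} := by
    rw [Ideal.map_span, Set.image_singleton]
    rfl
  rw [← h2]
  exact iso_alg hP (DoubleQuot.quotQuotEquivQuotSupₐ R I _).symm h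

lemma p_laurent (h : P (aff R A)) : P (aff R (LaurentPolynomial A)) := by
  have hft : Algebra.FiniteType R (Polynomial A) :=
    Algebra.FiniteType.trans (S := A) inferInstance inferInstance
  have h0 : ∀ x : Polynomial A, x ∈ RingHom.ker (Polynomial.aeval (0 : A) : Polynomial A →ₐ[A] A) ↔
      x ∈ Ideal.span {(Polynomial.X : Polynomial A)} := by
    intro x
    rw [RingHom.mem_ker, Ideal.mem_span_singleton, Polynomial.X_dvd_iff,
      Polynomial.coe_aeval_eq_eval, ← Polynomial.coeff_zero_eq_eval_zero]
  have e1 : (Polynomial A ⧸ Ideal.span {(Polynomial.X : Polynomial A)}) ≃ₐ[A] A := by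
    have hk : RingHom.ker (Polynomial.aeval (0 : A) : Polynomial A →ₐ[A] A) =
      Ideal.span {(Polynomial.X : Polynomial A)} := Ideal.ext h0
    rw [← hk]
    exact Ideal.quotientKerAlgEquivOfSurjective fun a => ⟨Polynomial.C a, Polynomial.aeval_C _ _⟩
  have h1 : P (aff R (Polynomial A ⧸ Ideal.span {(Polynomial.X : Polynomial A)})) :=
    iso_alg hP (e1.symm.restrictScalars R) h
  have h2 := ring_open hP (Polynomial.X : Polynomial A) h1 (hP.line A h)
  have hft2 : Algebra.FiniteType R (Localization.Away (Polynomial.X : Polynomial A)) :=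
    Algebra.FiniteType.trans (S := Polynomial A) inferInstance inferInstance
  have e2 : Localization.Away (Polynomial.X : Polynomial A) ≃ₐ[Polynomial A] LaurentPolynomial A :=
    IsLocalization.algEquiv (Submonoid.powers (Polynomial.X : Polynomial A)) _ _
  have : IsScalarTower R (Polynomial A) (LaurentPolynomial A) := by
    refine IsScalarTower.of_algebraMap_eq fun x => ?_
    rw [LaurentPolynomial.algebraMap_eq_toLaurent]
    rw [Polynomial.algebraMap_apply, Polynomial.toLaurent_C]
    rfl
  exact iso_alg hP (e2.restrictScalars R) h2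

end

theorem p_tor (b : ℕ) : ∀ (A : Type) [CommRing A] [Algebra R A] [Algebra.FiniteType R A],
    P (aff R A) → P (aff R (AddMonoidAlgebra A (Fin b → ℤ))) := by
  induction b with
  | zero =>
    intro A _ _ _ h
    exact iso_alg hP (AddMonoidAlgebra.uniqueAlgEquiv R (Fin 0 → ℤ)).symm h
  | succ b ih =>
    intro A _ _ _ h
    have h1 := ih A h
    have hft : Algebra.FiniteType R (AddMonoidAlgebra A (Fin b → ℤ)) :=
      Algebra.FiniteType.trans (S := A) inferInstance inferInstance
    have h2 := p_laurent hP h1
    have hft2 : Algebra.FiniteType R (LaurentPolynomial (AddMonoidAlgebra A (Fin b → ℤ))) :=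
      Algebra.FiniteType.trans (S := AddMonoidAlgebra A (Fin b → ℤ)) inferInstance inferInstance
    let e : ℤ × (Fin b → ℤ) ≃+ (Fin (b + 1) → ℤ) :=
      { toFun := fun x => Fin.cons x.1 x.2
        invFun := fun x => (x 0, Fin.tail x)
        left_inv := fun x => by
          ext i
          · rfl
          · rfl
        right_inv := fun x => Fin.cons_self_tail x
        map_add' := fun x y => by
          ext i
          refine Fin.cases ?_ (fun j => ?_) i
          · rfl
          · rfl }
    exact iso_alg hP (((AddMonoidAlgebra.curryAlgEquiv R (A := A) (M := ℤ)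
      (N := Fin b → ℤ)).symm).trans (AddMonoidAlgebra.domCongr R A e)) h2


end Pool.Agent.V5helper52.TR
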