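import Pool.Agent.V5helper52.TR.Dom

/-!
# Closed subschemes which are stable under the torus
-/

set_option autoImplicit false
set_option maxHeartbeats 400000

open Pool.Agent.Y116.UV Pool.Agent.V5helper52.SF MvPolynomial

namespace Pool.Agent.V5helper52.TR

variable {R A : Type} [CommRing R] [CommRing A] [Algebra R A]

lemma min_hom {ι : Type} [AddCommGroup ι] [LinearOrder ι] [IsOrderedCancelAddMonoid ι]
    (𝒜 : ι → Submodule R A) [GradedAlgebra 𝒜] {I p : Ideal A} (hp : p ∈ I.minimalPrimes)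
    (hI : I.IsHomogeneous 𝒜) : p.IsHomogeneous 𝒜 := by
  have hpp : p.IsPrime := hp.1.1
  have h1 : I ≤ (p.homogeneousCore 𝒜).toIdeal := by
    have h2 : I = (I.homogeneousCore 𝒜).toIdeal := hI.toIdeal_homogeneousCore_eq_self.symm
    rw [h2]
    exact Ideal.homogeneousCore_mono 𝒜 hp.1.2
  have h2 := hp.2 ⟨hpp.homogeneousCore, h1⟩ (Ideal.toIdeal_homogeneousCore_le 𝒜 p)
  have h3 : p = (p.homogeneousCore 𝒜).toIdeal := le_antisymm h2 (Ideal.toIdeal_homogeneousCore_le 𝒜 p)
  rw [h3]
  exact HomogeneousIdeal.isHomogeneous _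

lemma min_hom' {ι : Type} [AddCommGroup ι] [LinearOrder ι] [IsOrderedCancelAddMonoid ι]
    (dec : DecidableEq ι) (𝒜 : ι → Submodule R A) [inst : @GradedAlgebra ι R A dec _ _ _ _ 𝒜]
    {I p : Ideal A} (hp : p ∈ I.minimalPrimes) (hI : I.IsHomogeneous 𝒜) : p.IsHomogeneous 𝒜 := by
  obtain rfl : dec = LinearOrder.toDecidableEq := Subsingleton.elim _ _
  exact min_hom 𝒜 hp hI

lemma min_hom_fin {r : ℕ} (𝒜 : (Fin r → ℤ) → Submodule R A) [inst : GradedAlgebra 𝒜]
    {I p : Ideal A} (hp : p ∈ I.minimalPrimes) (hI : I.IsHomogeneous 𝒜) : p.IsHomogeneous 𝒜 :=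
  min_hom' (ι := Lex (Fin r → ℤ)) (inferInstanceAs (DecidableEq (Fin r → ℤ))) 𝒜 (inst := inst) hp hI

/-- clearing denominators uniformly -/
lemma exists_clear {ι : Type} [Fintype ι] (a b : ι → A) (F : MvPolynomial ι R) :
    ∃ (D : ℕ) (c : A), ∀ (q : Ideal A) [q.IsPrime], (∀ l, b l ∉ q) →
      φ (k := R) q c = aeval (fun l => φ (k := R) q (a l) / φ (k := R) q (b l)) F *
        (∏ l, φ (k := R) q (b l)) ^ D := by
  classical
  induction F using MvPolynomial.induction_on with
  | C r =>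
    refine ⟨0, algebraMap R A r, fun q _ _ => ?_⟩
    rw [aeval_C, pow_zero, mul_one, AlgHom.commutes]
  | add F1 F2 h1 h2 =>
    obtain ⟨D1, c1, h1⟩ := h1
    obtain ⟨D2, c2, h2⟩ := h2
    refine ⟨D1 + D2, c1 * (∏ l, b l) ^ D2 + c2 * (∏ l, b l) ^ D1, fun q _ hq => ?_⟩
    rw [map_add, map_mul, map_mul, h1 q hq, h2 q hq, map_add, map_pow, map_pow, map_prod]
    ring
  | mul_X F i h =>
    obtain ⟨D, c, h⟩ := h
    refine ⟨D + 1, c * (a i * ∏ l ∈ Finset.univ.erase i, b l), fun q _ hq => ?_⟩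
    have hb : φ (k := R) q (b i) ≠ 0 := fun h => hq i ((φ_zero R q _).mp h)
    rw [map_mul, map_mul, h q hq, map_mul, aeval_X, map_prod, pow_succ,
      ← Finset.mul_prod_erase Finset.univ (fun l => φ (k := R) q (b l)) (Finset.mem_univ i)]
    field_simp

variable {r : ℕ} {𝒜 : (Fin r → ℤ) → Submodule R A} [GradedAlgebra 𝒜]

/-- invariants form a subalgebra -/
lemma inv_mem_frW {p : Ideal A} [p.IsPrime] {x : FractionRing (A ⧸ p)} :
    IsInv 𝒜 p x ↔ x ∈ frW 𝒜 p 0 := by
  constructor
  · rintro ⟨g, a, ha, b, hb, hbp, he⟩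
    exact ⟨g, a, by rwa [add_zero], b, hb, hbp, he⟩
  · rintro ⟨g, a, ha, b, hb, hbp, he⟩
    rw [add_zero] at ha
    exact ⟨g, a, ha, b, hb, hbp, he⟩

/-- The complexity of the minimal primes bounds that of all homogeneous primes. -/
theorem complexity_le {n : ℕ} (h : ComplexityLE 𝒜 n) (p : Ideal A) [hp : p.IsPrime]
    (C : Subalgebra R (FractionRing (A ⧸ p))) (hfg : C.FG)
    (hx : ∀ x ∈ C, IsInv 𝒜 p x) : ringKrullDim C ≤ n := by
  classical
  obtain ⟨q, hq, hqp⟩ := Ideal.exists_minimalPrimes_le (bot_le : (⊥ : Ideal A) ≤ p)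
  have hqq : q.IsPrime := hq.1.1
  have hqh : q.IsHomogeneous 𝒜 := min_hom_fin 𝒜 hq (Ideal.IsHomogeneous.bot 𝒜)
  obtain ⟨t, ht⟩ := hfg
  have hxt : ∀ l : t, IsInv 𝒜 p (l : FractionRing (A ⧸ p)) := fun l =>
    hx _ (by rw [← ht]; exact Algebra.subset_adjoin l.2)
  choose g a ha b hb hbp hxe using hxt
  have hbq : ∀ l, b l ∉ q := fun l hl => hbp l (hqp hl)
  -- the two subalgebras
  let f : MvPolynomial t R →ₐ[R] FractionRing (A ⧸ p) :=
    aeval (fun l => φ (k := R) p (a l) / φ (k := R) p (b l))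
  let f' : MvPolynomial t R →ₐ[R] FractionRing (A ⧸ q) :=
    aeval (fun l => φ (k := R) q (a l) / φ (k := R) q (b l))
  have hfe : f = aeval (fun l : t => (l : FractionRing (A ⧸ p))) := by
    apply MvPolynomial.algHom_ext
    intro l
    change aeval (fun l => φ (k := R) p (a l) / φ (k := R) p (b l)) (X l) =
      aeval (fun l : t => (l : FractionRing (A ⧸ p))) (X l)
    rw [aeval_X, aeval_X, hxe l]
    rfl
  have hfr : f.range = C := by
    rw [hfe, ← ht, Algebra.adjoin_eq_range]
    rfl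
  have hker : ∀ F, f' F = 0 → f F = 0 := by
    intro F hF
    obtain ⟨D, c, hc⟩ := exists_clear (R := R) a b F
    have h1 := hc q hbq
    have h1' : φ (k := R) q c = 0 := by
      rw [h1]
      have h2 : aeval (fun l => φ (k := R) q (a l) / φ (k := R) q (b l)) F = 0 := hF
      rw [h2, zero_mul]
    have h2 : c ∈ p := hqp ((φ_zero R q c).mp h1')
    have h3 := hc p hbp
    rw [(φ_zero R p c).mpr h2] at h3
    refine (mul_eq_zero.mp h3.symm).resolve_right (pow_ne_zero D ?_)
    exact Finset.prod_ne_zero_iff.mpr fun l _ h => hbp l ((φ_zero R p _).mp h)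
  have hfg' : f'.range.FG := by
    rw [Subalgebra.fg_iff_finiteType]
    exact Algebra.FiniteType.of_surjective f'.rangeRestrict f'.rangeRestrict_surjective
  have hW := wts 𝒜 q hqh
  have hinv : ∀ y ∈ f'.range, IsInv 𝒜 q y := by
    rintro y ⟨F, rfl⟩
    rw [inv_mem_frW]
    have h1 : ∀ F : MvPolynomial t R, f' F ∈ deg0 hW ⊤ := by
      intro F
      have h2 : f'.range ≤ deg0 hW ⊤ := by
        have h3 : f'.range = Algebra.adjoin R (Set.range
            fun l => φ (k := R) q (a l) / φ (k := R) q (b l)) :=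
          (Algebra.adjoin_range_eq_range_aeval R _).symm
        rw [h3, Algebra.adjoin_le_iff]
        rintro _ ⟨l, rfl⟩
        exact ⟨trivial, ⟨g l, a l, by rw [add_zero]; exact ha l, b l, hb l, hbq l, rfl⟩⟩
      exact h2 ⟨F, rfl⟩
    exact (h1 F).2
  have hd := h q hq f'.range hfg' hinv
  -- the surjection
  let π : f'.range →+* f.range := by
    refine RingHom.liftOfSurjective (f'.rangeRestrict : MvPolynomial t R →+* f'.range)
      f'.rangeRestrict_surjective ⟨(f.rangeRestrict : MvPolynomial t R →+* f.range), ?_⟩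
    intro F hF
    have h1 : f' F = 0 := congrArg Subtype.val (RingHom.mem_ker.mp hF)
    exact RingHom.mem_ker.mpr (Subtype.ext (hker F h1))
  have hπ : Function.Surjective π := by
    rintro ⟨_, F, rfl⟩
    refine ⟨f'.rangeRestrict F, ?_⟩
    exact RingHom.liftOfRightInverse_comp_apply _ _ _ _ _
  rw [← hfr]
  exact (ringKrullDim_le_of_surjective π hπ).trans hd

/-- **Homogeneous ideals.** -/
theorem p_homog [IsNoetherianRing R] [Algebra.FiniteType R A] {P : Sch R → Prop} (hP : Loc P) {n : ℕ}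
    (hn : ∀ (C : Type) [CommRing C] [IsDomain C] [Algebra R C] [Algebra.FiniteType R C],
      ringKrullDim C ≤ n → P (aff R C)) (hmod : ComplexityLE 𝒜 n) (I : Ideal A)
    (hI : I.IsHomogeneous 𝒜) : P (aff R (A ⧸ I)) := by
  have hN : IsNoetherianRing A := Algebra.FiniteType.isNoetherianRing R A
  induction I using IsNoetherian.induction (R := A) (M := A) with
  | hgt I ih =>
  by_cases hIt : I = ⊤
  · apply p_emp hP
    have : Subsingleton (A ⧸ I) := Ideal.Quotient.subsingleton_iff.mpr hIt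
    exact inferInstanceAs (IsEmpty (PrimeSpectrum (A ⧸ I)))
  obtain ⟨p, hp⟩ := Ideal.nonempty_minimalPrimes hIt
  have hpp : p.IsPrime := hp.1.1
  have hps := min_hom_fin 𝒜 hp hI
  by_cases hIp : I = p
  · subst hIp
    refine p_prime 𝒜 I hI hP (fun C hC hx => ?_) fun a g haI hag => ?_
    · have : Algebra.FiniteType R C := (Subalgebra.fg_iff_finiteType _).mp hC
      exact hn C (complexity_le hmod I C hC hx)
    · refine ih _ ?_ (hI.sup (Ideal.homogeneous_span 𝒜 {a} fun x hx => ?_))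
      · refine lt_of_le_of_ne le_sup_left fun h => haI ?_
        rw [h]
        exact Ideal.mem_sup_right (Ideal.mem_span_singleton_self a)
      · rw [Set.mem_singleton_iff.mp hx]
        exact ⟨g, hag⟩
  · -- the other minimal primes
    let J : Ideal A := sInf (Ideal.minimalPrimes I \ {p})
    have hJs : J.IsHomogeneous 𝒜 := Ideal.IsHomogeneous.sInf fun q hq => min_hom_fin 𝒜 hq.1 hI
    have hIp' : I < p := lt_of_le_of_ne hp.1.2 hIp
    have hIJ : I ≤ J := le_sInf fun q hq => hq.1.1.2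
    have hrad : p ⊓ J ≤ Ideal.radical I := by
      rw [← Ideal.sInf_minimalPrimes]
      refine le_sInf fun q hq => ?_
      by_cases hqp : q = p
      · rw [hqp]; exact inf_le_left
      · exact inf_le_right.trans (sInf_le ⟨hq, hqp⟩)
    have hfin : (Ideal.minimalPrimes I).Finite := Ideal.finite_minimalPrimes_of_isNoetherianRing A I
    have hJ : I ≠ J := by
      intro h
      -- `p` contains the intersection of the other minimal primes
      have h1 : (hfin.sdiff (t := {p})).toFinset.inf id ≤ p := by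
        have h2 : (hfin.sdiff (t := {p})).toFinset.inf id = J := by
          rw [Finset.inf_id_eq_sInf, Set.Finite.coe_toFinset]
        rw [h2, ← h]
        exact hp.1.2
      rw [Ideal.IsPrime.inf_le' hpp] at h1
      obtain ⟨q, hq, hqp⟩ := h1
      rw [Set.Finite.mem_toFinset] at hq
      exact hq.2 (le_antisymm hqp (hp.2 hq.1.1 hqp))
    have hIJ' : I < J := lt_of_le_of_ne hIJ hJ
    exact p_union hP hp.1.2 hIJ hrad (ih p hIp' hps) (ih J hIJ' hJs)
      (ih (p ⊔ J) (lt_of_lt_of_le hIp' le_sup_left) (hps.sup hJs))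

end Pool.Agent.V5helper52.TR
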