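import Pool.Agent.V5helper52.TR.Wts

/-!
# Algebras generated by homogeneous units
-/

set_option autoImplicit false
set_option maxHeartbeats 400000

namespace Pool.Agent.V5helper52.TR

variable {k K G : Type} [CommRing k] [Field K] [Algebra k K] [AddCommGroup G]
  {W : G → Submodule k K} (hW : Wts W)

include hW in
lemma indep' {ι : Type} (s : Finset ι) (γ : ι → G) (hγ : Function.Injective γ) (y : ι → K)
    (hy : ∀ i ∈ s, y i ∈ W (γ i)) (h : ∑ i ∈ s, y i = 0) : ∀ i ∈ s, y i = 0 := by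
  classical
  let v : G →₀ K := ∑ i ∈ s, Finsupp.single (γ i) (y i)
  have hv : ∀ g, v g ∈ W g := by
    intro g
    rw [Finsupp.finsetSum_apply]
    refine sum_mem fun i hi => ?_
    rw [Finsupp.single_apply]
    split_ifs with h1
    · rw [← h1]; exact hy i hi
    · exact zero_mem _
  have hv2 : ∑ g ∈ v.support, v g = 0 := by
    have h1 : ∑ g ∈ v.support, v g = v.sum fun _ y => y := rfl
    rw [h1, ← Finsupp.sum_finsetSum_index (fun _ => rfl) (fun _ _ _ => rfl), ← h]
    exact Finset.sum_congr rfl fun i _ => Finsupp.sum_single_index rfl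
  have hv3 := hW.indep v hv hv2
  intro i hi
  have h2 := DFunLike.congr_fun hv3 (γ i)
  rw [Finsupp.finsetSum_apply, Finset.sum_eq_single i, Finsupp.single_eq_same] at h2
  · exact h2
  · intro j hj hji
    rw [Finsupp.single_apply, if_neg]
    exact fun e => hji (hγ e)
  · exact fun h => absurd hi h

include hW in
lemma w_prod {ι : Type} (s : Finset ι) (γ : ι → G) (y : ι → K) (hy : ∀ i ∈ s, y i ∈ W (γ i)) :
    ∏ i ∈ s, y i ∈ W (∑ i ∈ s, γ i) := by
  classical
  induction s using Finset.induction_on with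
  | empty => rw [Finset.prod_empty, Finset.sum_empty]; exact hW.one
  | insert i s hi ih =>
    rw [Finset.prod_insert hi, Finset.sum_insert hi]
    exact hW.mul (hy i (Finset.mem_insert_self i s))
      (ih fun j hj => hy j (Finset.mem_insert_of_mem hj))

/-- the component of degree zero -/
def deg0 (T : Subalgebra k K) : Subalgebra k K where
  carrier := {x | x ∈ T ∧ x ∈ W 0}
  mul_mem' := by
    rintro a b ⟨h1, h2⟩ ⟨h3, h4⟩
    refine ⟨mul_mem h1 h3, ?_⟩
    have h5 := hW.mul h2 h4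
    rwa [add_zero] at h5
  add_mem' := by
    rintro a b ⟨h1, h2⟩ ⟨h3, h4⟩
    exact ⟨add_mem h1 h3, add_mem h2 h4⟩
  algebraMap_mem' r := ⟨T.algebraMap_mem r, by
    rw [Algebra.algebraMap_eq_smul_one]
    exact (W 0).smul_mem r hW.one⟩

lemma deg0_le (T : Subalgebra k K) : deg0 hW T ≤ T := fun _ hx => hx.1

/-- homogeneous units -/
def hun (W : G → Submodule k K) (T : Subalgebra k K) : Set K :=
  {u | u ∈ T ∧ u⁻¹ ∈ T ∧ u ≠ 0 ∧ ∃ g, u ∈ W g}

/-- the degrees of the homogeneous units -/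
def hdeg (T : Subalgebra k K) : AddSubgroup G where
  carrier := {g | ∃ u, u ∈ T ∧ u⁻¹ ∈ T ∧ u ≠ 0 ∧ u ∈ W g}
  add_mem' := by
    rintro g h ⟨u, h1, h2, h3, h4⟩ ⟨v, h5, h6, h7, h8⟩
    exact ⟨u * v, mul_mem h1 h5, by rw [mul_inv]; exact mul_mem h2 h6, mul_ne_zero h3 h7,
      hW.mul h4 h8⟩
  zero_mem' := ⟨1, one_mem _, by rw [inv_one]; exact one_mem _, one_ne_zero, hW.one⟩
  neg_mem' := by
    rintro g ⟨u, h1, h2, h3, h4⟩
    exact ⟨u⁻¹, h2, by rwa [inv_inv], inv_ne_zero h3, hW.inv h4⟩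

lemma zpow_mem' {T : Subalgebra k K} {u : K} (h1 : u ∈ T) (h2 : u⁻¹ ∈ T) (n : ℤ) : u ^ n ∈ T := by
  cases n with
  | ofNat n => simpa using pow_mem h1 n
  | negSucc n =>
    rw [zpow_negSucc, ← inv_pow]
    exact pow_mem h2 _

theorem torus [Module.Free ℤ G] [Module.Finite ℤ G] (T : Subalgebra k K)
    (hT : Subalgebra.toSubmodule T ≤ Submodule.span k (hun W T)) :
    ∃ b : ℕ, Nonempty (T ≃ₐ[k] AddMonoidAlgebra (deg0 hW T) (Fin b → ℤ)) := by
  classical
  let H : Submodule ℤ G := AddSubgroup.toIntSubmodule (hdeg hW T)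
  let b : ℕ := Module.finrank ℤ H
  let bas : Module.Basis (Fin b) ℤ H := Module.finBasis ℤ H
  choose u hu1 hu2 hu3 hu4 using fun j => (bas j).2
  let γ : (Fin b → ℤ) → G := fun a => ((bas.equivFun.symm a : H) : G)
  have hγ : Function.Injective γ := fun a a' h =>
    bas.equivFun.symm.injective (Subtype.ext h)
  let w : (Fin b → ℤ) → K := fun a => ∏ j, u j ^ a j
  have hw0 : ∀ a, w a ≠ 0 := fun a => Finset.prod_ne_zero_iff.mpr fun j _ => zpow_ne_zero _ (hu3 j)
  have hwT : ∀ a, w a ∈ T := fun a => prod_mem fun j _ => zpow_mem' (hu1 j) (hu2 j) _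
  have hwa : ∀ a a', w (a + a') = w a * w a' := by
    intro a a'
    rw [← Finset.prod_mul_distrib]
    exact Finset.prod_congr rfl fun j _ => zpow_add₀ (hu3 j) _ _
  have hw1 : w 0 = 1 := Finset.prod_eq_one fun j _ => zpow_zero _
  have hwn : ∀ a, (w a)⁻¹ = w (-a) := by
    intro a
    refine inv_eq_of_mul_eq_one_right ?_
    rw [← hwa, add_neg_cancel, hw1]
  have hwW : ∀ a, w a ∈ W (γ a) := by
    intro a
    have h1 : γ a = ∑ j, a j • (bas j : G) := by
      change ((bas.equivFun.symm a : H) : G) = _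
      rw [Module.Basis.equivFun_symm_apply, AddSubmonoidClass.coe_finsetSum]
      rfl
    rw [h1]
    exact w_prod hW _ _ _ fun j _ => w_zpow hW (hu4 j) _
  let C : Subalgebra k K := deg0 hW T
  let wh : Multiplicative (Fin b → ℤ) →* K :=
    { toFun := fun a => w a.toAdd
      map_one' := hw1
      map_mul' := fun a a' => hwa _ _ }
  let Ψ : AddMonoidAlgebra C (Fin b → ℤ) →ₐ[C] K := AddMonoidAlgebra.lift C K (Fin b → ℤ) wh
  have hΨ : ∀ a c, Ψ (AddMonoidAlgebra.single a c) = (c : K) * w a := by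
    intro a c
    rw [AddMonoidAlgebra.lift_single]
    rfl
  have hmem : ∀ x, Ψ x ∈ T := by
    intro x
    rw [AddMonoidAlgebra.lift_apply]
    refine sum_mem fun a _ => ?_
    exact mul_mem (deg0_le hW T (x.coeff a).2) (hwT a)
  let f : AddMonoidAlgebra C (Fin b → ℤ) →ₐ[k] T := (Ψ.restrictScalars k).codRestrict T hmem
  have hinj : Function.Injective Ψ := by
    rw [injective_iff_map_eq_zero]
    intro x hx
    rw [AddMonoidAlgebra.lift_apply] at hx
    have h1 := indep' hW x.coeff.support γ hγ (fun a => (x.coeff a : K) * w a) (fun a _ => by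
      have h2 := hW.mul (x.coeff a).2.2 (hwW a)
      rwa [zero_add] at h2) hx
    ext a
    by_cases ha : a ∈ x.coeff.support
    · exact ((mul_eq_zero.mp (h1 a ha)).resolve_right (hw0 a))
    · rw [Finsupp.notMem_support_iff.mp ha]
      rfl
  have hbij : Function.Bijective f := by
    constructor
    · intro x y h
      exact hinj (congrArg Subtype.val h)
    · rintro ⟨y, hy⟩
      have key : ∀ y ∈ Submodule.span k (hun W T), ∃ x, Ψ x = y := by
        intro y hy
        induction hy using Submodule.span_induction with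
        | mem y h =>
          obtain ⟨h1, h2, h3, g, h4⟩ := h
          have hg : g ∈ H := ⟨y, h1, h2, h3, h4⟩
          let a := bas.equivFun ⟨g, hg⟩
          have ha : γ a = g := by
            change ((bas.equivFun.symm (bas.equivFun ⟨g, hg⟩) : H) : G) = g
            rw [LinearEquiv.symm_apply_apply]
          have hc : y * (w a)⁻¹ ∈ C := by
            refine ⟨mul_mem h1 (by rw [hwn]; exact hwT _), ?_⟩
            have h5 := hW.mul h4 (hW.inv (hwW a))
            rwa [ha, add_neg_cancel] at h5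
          refine ⟨AddMonoidAlgebra.single a ⟨_, hc⟩, ?_⟩
          rw [hΨ]
          exact inv_mul_cancel_right₀ (hw0 a) y
        | zero => exact ⟨0, map_zero Ψ⟩
        | add y z _ _ hy hz =>
          obtain ⟨x, rfl⟩ := hy
          obtain ⟨x', rfl⟩ := hz
          exact ⟨x + x', map_add Ψ _ _⟩
        | smul r y _ hy =>
          obtain ⟨x, rfl⟩ := hy
          exact ⟨r • x, map_smul (Ψ.restrictScalars k) r x⟩
      obtain ⟨x, hx⟩ := key y (hT hy)
      exact ⟨x, Subtype.ext hx⟩
  exact ⟨b, ⟨(AlgEquiv.ofBijective f hbij).symm⟩⟩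

lemma deg0_fg {T : Subalgebra k K} (hT : T.FG) {b : ℕ}
    (e : Nonempty (T ≃ₐ[k] AddMonoidAlgebra (deg0 hW T) (Fin b → ℤ))) : (deg0 hW T).FG := by
  obtain ⟨e⟩ := e
  rw [Subalgebra.fg_iff_finiteType] at hT ⊢
  have h1 : Algebra.FiniteType k (AddMonoidAlgebra (deg0 hW T) (Fin b → ℤ)) :=
    Algebra.FiniteType.equiv hT e
  refine Algebra.FiniteType.of_surjective
    ((AddMonoidAlgebra.lift (deg0 hW T) (deg0 hW T) (Fin b → ℤ) 1).restrictScalars k) ?_
  intro c
  refine ⟨AddMonoidAlgebra.single 0 c, ?_⟩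
  change AddMonoidAlgebra.lift (deg0 hW T) (deg0 hW T) (Fin b → ℤ) 1 _ = c
  rw [AddMonoidAlgebra.lift_single]
  exact mul_one c

end Pool.Agent.V5helper52.TR
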