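import Pool.Agent.V5helper52.TR.Atlas
import Pool.Agent.Q193.LT.Mod

/-!
# Finite generation of étale motivic cohomology and actions of split tori
-/

set_option autoImplicit false

open CategoryTheory AlgebraicGeometry Pool.Agent.Y116.UV Pool.Agent.V5helper52.SF
  Pool.Agent.Q193.LT

universe w

namespace Pool.Agent.V5helper52.TR

/-- The known properties of the étale motivic cohomology groups `H n i X = H^i(X_et, ℤ^c(n))`, `n < 0`,
of arithmetic schemes `X`.

* `iso`: invariance under isomorphisms;
* `les` (Geisser): long exact sequences `⋯ → H^i(Z) → H^i(X) → H^i(U) → H^(i+1)(Z) → ⋯` for a closed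
  subscheme `Z` of `X` and its complement `U`;
* `line` (Geisser): `H^i(X × 𝔸¹, ℤ^c(n)) = H^(i+2)(X, ℤ^c(n-1))`, for affine `X`;
* `dimOne`: the groups of the schemes of dimension at most one are finitely generated (rings of
  integers: Borel, Quillen, Soulé, Rost, Voevodsky; curves over finite fields: Quillen, Harder; the
  general case follows by localization). -/
structure IsCycleCohomology (H : ℤ → ℤ → Sch ℤ → ModuleCat.{w} ℤ) : Prop where
  iso : ∀ {X Y : Sch ℤ}, FT True X → Nonempty (X ≅ Y) → ∀ n < 0, ∀ i, Nonempty (H n i X ≅ H n i Y)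
  les : ∀ {Z X U : Sch ℤ} (i : Z ⟶ X) (j : U ⟶ X), FT True X → IsTriple i j → ∀ n < 0,
    ∃ m : LesMaps (H n) (Equiv.addRight 1) Z X U, m.IsExact
  line : ∀ (A : Type) [CommRing A] [Algebra ℤ A] [Algebra.FiniteType ℤ A], ∀ n < 0, ∀ i,
    Nonempty (H n i (aff ℤ (Polynomial A)) ≅ H (n - 1) (i + 2) (aff ℤ A))
  dimOne : ∀ X : Sch ℤ, FT True X → topologicalKrullDim X.left ≤ 1 → ∀ n < 0, ∀ i,
    Module.Finite ℤ (H n i X)

/-- The groups `H^i(X_et, ℤ^c(n'))` are finitely generated for all `n' ≤ n` and all `i`. -/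
def FinGen (H : ℤ → ℤ → Sch ℤ → ModuleCat.{w} ℤ) (n : ℤ) (X : Sch ℤ) : Prop :=
  ∀ n' ≤ n, ∀ i, Module.Finite ℤ (H n' i X)

/-- The smallest class of schemes of finite type over `R` which contains the schemes with an atlas of
actions of split tori of absolute complexity at most `m`, and which contains, if `Z` is a closed
subscheme of `X` and `U` its complement, all three schemes `Z`, `X`, `U` if it contains two of them. -/
inductive Built {R : Type} [CommRing R] (m : ℕ) : Sch R → Prop
  | atlas {X : Sch R} (hX : FT True X) (a : TorusAtlas X m) : Built m X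
  | total {Z X U : Sch R} (i : Z ⟶ X) (j : U ⟶ X) (hX : FT True X) (ht : IsTriple i j) :
    Built m Z → Built m U → Built m X
  | opened {Z X U : Sch R} (i : Z ⟶ X) (j : U ⟶ X) (hX : FT True X) (ht : IsTriple i j) :
    Built m Z → Built m X → Built m U
  | closed {Z X U : Sch R} (i : Z ⟶ X) (j : U ⟶ X) (hX : FT True X) (ht : IsTriple i j) :
    Built m X → Built m U → Built m Z

/-- **The devissage.** -/
theorem p_built {R : Type} [CommRing R] [IsNoetherianRing R] {P : Sch R → Prop} (hP : Loc P) {m : ℕ}
    (hn : ∀ (C : Type) [CommRing C] [IsDomain C] [Algebra R C] [Algebra.FiniteType R C],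
      ringKrullDim C ≤ m → P (aff R C)) {X : Sch R} (h : Built m X) : P X := by
  induction h with
  | atlas hX a => exact p_atlas hP hn hX a
  | total i j hX ht _ _ h1 h2 => exact hP.total i j hX ht h1 h2
  | opened i j hX ht _ _ h1 h2 => exact hP.opened i j hX ht h1 h2
  | closed i j hX ht _ _ h1 h2 => exact hP.closed i j hX ht h1 h2

variable {H : ℤ → ℤ → Sch ℤ → ModuleCat.{w} ℤ}

lemma topDim_aff' {R C : Type} [CommRing R] [CommRing C] [Algebra R C] :
    topologicalKrullDim (aff R C).left = ringKrullDim C :=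
  PrimeSpectrum.topologicalKrullDim_eq_ringKrullDim C

theorem loc_finGen (h : IsCycleCohomology H) {n : ℤ} (hn : n < 0) : Loc (FinGen H n) where
  iso hX e hF n' hn' i := by
    obtain ⟨e'⟩ := h.iso hX e n' (by omega) i
    exact serre_finite.iso e' (hF n' hn' i)
  total i j hX ht h1 h2 n' hn' := by
    obtain ⟨m, hm⟩ := h.les i j hX ht n' (by omega)
    exact LesMaps.mid serre_finite hm (h1 n' hn') (h2 n' hn')
  opened i j hX ht h1 h2 n' hn' := by
    obtain ⟨m, hm⟩ := h.les i j hX ht n' (by omega)
    exact LesMaps.right serre_finite hm (h1 n' hn') (h2 n' hn')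
  closed i j hX ht h1 h2 n' hn' := by
    obtain ⟨m, hm⟩ := h.les i j hX ht n' (by omega)
    exact LesMaps.left serre_finite hm (h1 n' hn') (h2 n' hn')
  empty n' hn' i := by
    refine h.dimOne _ (ft_aff True) ?_ n' (by omega) i
    rw [topDim_aff', ringKrullDim_eq_bot_of_subsingleton]
    exact bot_le
  line A _ _ _ hA n' hn' i := by
    obtain ⟨e⟩ := h.line A n' (by omega) i
    exact serre_finite.iso e.symm (hA (n' - 1) (by omega) (i + 2))

end Pool.Agent.V5helper52.TR
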